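import Pool.Agent.V8H2.PK.Fib

set_option autoImplicit false
set_option linter.unusedSectionVars false

/-!
# Circle fibres are good after almost every rotation
-/

open scoped Manifold ContDiff Topology
open Set Filter MeasureTheory

universe u

namespace Pool.Agent.V8H2.PK

open Pool.Agent.Helper320.CQ Pool.Agent.V8H2.PG Pool.Agent.H718R2.G

variable {n k : ℕ} {M Q : Type u} [TopologicalSpace M] [T2Space M] [ChartedSpace (V n) M]
  [TopologicalSpace Q] [ChartedSpace (V k) Q]

theorem goodOn_empty (S : M → M) : GoodOn S (∅ : Set M) := by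
  refine ⟨0, fun i => i.elim0, fun i => i.elim0, fun i => i.elim0, fun i => i.elim0,
    fun i => i.elim0, fun i => i.elim0, fun z hz => ?_⟩
  obtain ⟨m, x, hm, h0, h1, h2, h3⟩ := hz univ isOpen_univ fun _ => mem_univ _
  exact absurd (h2 0 (Nat.zero_le _)) (notMem_empty _)

theorem FlowAlong.cont {π : M → Q} {R : ℝ → M → M} (hR : FlowAlong n π R) (t : ℝ) :
    ContMDiff (𝓡 n) (𝓡 n) ∞ (R t) := by
  have h1 : ContMDiff (𝓡 n) (𝓘(ℝ, ℝ).prod (𝓡 n)) ∞ (fun x : M => (t, x)) :=
    contMDiff_const.prodMk contMDiff_id
  exact hR.smooth.comp h1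

/-- **Circle fibres.** -/
theorem circle_good {π : M → Q} {S : M → M} (hSc : Continuous S) (h : CircleFibres n π S) :
    AeGood n k π S := by
  obtain ⟨R, hR, hfree, horb, hlift⟩ := h
  refine ⟨R, hR, ?_⟩
  have hall : ∀ q : Q, ∀ᵐ t : ℝ, GoodOn (fun x => R t (S x)) (π ⁻¹' {q}) := by
    intro q
    rcases (π ⁻¹' {q}).eq_empty_or_nonempty with he | ⟨x0, hx0⟩
    · rw [he]
      exact Filter.Eventually.of_forall fun t => goodOn_empty _
    · obtain ⟨f, hf, hSf⟩ := hlift x0
      have hnull : volume (⋃ (q : ℕ) (p : ℤ), DegP f (q + 1) p) = 0 := by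
        rw [measure_iUnion_null_iff]
        intro q
        rw [measure_iUnion_null_iff]
        intro p
        exact degP_null hf (q + 1) (by omega) p
      have hrange : π ⁻¹' {q} = range fun t => R t x0 := by
        apply Subset.antisymm
        · intro y hy
          have h1 : π x0 = π y := by
            have k1 : π x0 = q := hx0
            have k2 : π y = q := hy
            rw [k1, k2]
          obtain ⟨t, ht⟩ := horb _ _ h1
          exact ⟨t, ht.symm⟩
        · rintro _ ⟨t, rfl⟩
          show π (R t x0) = q
          rw [hR.fib]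
          exact hx0
      have hprc : Continuous fun t => R t x0 :=
        hR.smooth.continuous.comp (continuous_id.prodMk continuous_const)
      have hpr : ∀ s t : ℝ, R s x0 = R t x0 ↔ ∃ m : ℤ, s = t + m := by
        intro s t
        have e1 : R s x0 = R t (R (s - t) x0) := by
          rw [← hR.add]
          congr 1
          ring
        constructor
        · intro h
          rw [e1] at h
          have h2 : R (s - t) x0 = x0 := by
            have h3 := congrArg (R (-t)) h
            rw [← hR.add, ← hR.add (-t) t x0, neg_add_cancel, hR.zero, hR.zero] at h3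
            exact h3
          obtain ⟨m, hm⟩ := (hfree _ _).1 h2
          exact ⟨m, by linarith⟩
        · rintro ⟨m, hm⟩
          rw [e1, (hfree (s - t) x0).2 ⟨m, by linarith⟩]
      rw [hrange]
      refine (measure_eq_zero_iff_ae_notMem.1 hnull).mono fun t ht => ?_
      refine good_circle hprc hpr ((FlowAlong.cont hR t).continuous.comp hSc) (rot_lift hf t)
        (fun u => ?_) fun q p hq x hx hd => ht ?_
      · show R t (S (R u x0)) = R (rot f t u) x0
        rw [hSf, ← hR.add]
        unfold rot
        rw [add_comm]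
      · obtain ⟨q', rfl⟩ := Nat.exists_eq_add_of_le' hq
        exact mem_iUnion₂.2 ⟨q', p, x, hx, hd⟩
  have hempty : {q : Q | ¬ ∀ᵐ t : ℝ, GoodOn (fun x => R t (S x)) (π ⁻¹' {q})} = ∅ := by
    ext q
    simp only [mem_ofPred_eq, mem_empty_iff_false, iff_false, not_not]
    exact hall q
  rw [hempty]
  intro χ _
  simp

end Pool.Agent.V8H2.PK
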