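import Pool.Agent.V8H2.PK.Lyap
import Pool.Agent.V8H2.PG.Defs
import Pool.Agent.Y504.CO.Fin

set_option autoImplicit false
set_option linter.unusedSectionVars false

/-!
# Good fibres
-/

open Set Filter Topology MeasureTheory

universe u

namespace Pool.Agent.V8H2.PK

open Pool.Agent.Helper320.CQ Pool.Agent.V8H2.PG

open Pool.Agent.TH80.OMS (Per)

open Pool.Agent.Y504.CO (orb orb_finite orb_iter mem_orb_self orb_back orb_eq orb_disjoint iter_mul_per)

variable {M : Type u} [TopologicalSpace M]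

/-- chain recurrence and Lyapunov functions -/
theorem chain_lyap {S : M → M} (hS : Continuous S) {K P0 : Set M} (hK : IsCompact K)
    (hKc : IsClosed K) (hSK : ∀ y ∈ K, S y ∈ K) (hP0 : P0.Finite) {L : M → ℝ}
    (hL : ContinuousOn L K) (hle : ∀ y ∈ K, L (S y) ≤ L y)
    (hlt : ∀ y ∈ K, y ∉ P0 → L (S y) < L y) {z : M} (hz : ChainRecOn S K z) : z ∈ P0 := by
  by_contra hcon
  have hzK : z ∈ K := by
    obtain ⟨m, x, hm, h0, h1, h2, h3⟩ := hz univ isOpen_univ fun _ => mem_univ _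
    rw [← h0]
    exact h2 0 (Nat.zero_le _)
  have h1 := hlt z hzK hcon
  obtain ⟨c, hc1, hc2⟩ := ((Set.Ioo_infinite h1).sdiff (hP0.image L)).nonempty
  set Kc : Set M := K ∩ L ⁻¹' Iic c with hKcd
  have hKcc : IsCompact Kc := hK.of_isClosed_subset
    (hL.preimage_isClosed_of_isClosed hKc isClosed_Iic) inter_subset_left
  have hb : ∀ y ∈ Kc, L (S y) < c := by
    intro y hy
    by_cases hyP : y ∈ P0
    · refine lt_of_le_of_ne ((hle y hy.1).trans hy.2) fun h => ?_
      have h2 : L y = c := le_antisymm hy.2 (h ▸ hle y hy.1)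
      exact hc2 ⟨y, hyP, h2⟩
    · exact (hlt y hy.1 hyP).trans_le hy.2
  have hne : Kc.Nonempty := ⟨S z, hSK z hzK, hc1.1.le⟩
  have hLS : ContinuousOn (fun y => L (S y)) Kc :=
    hL.comp hS.continuousOn fun y hy => hSK y hy.1
  obtain ⟨y0, hy0, hmax⟩ := hKcc.exists_isMaxOn hne hLS
  set δ : ℝ := min (c - L (S y0)) (c - L (S z)) with hδ
  have hδ0 : 0 < δ := lt_min (sub_pos.2 (hb y0 hy0)) (sub_pos.2 hc1.1)
  set W : Set (M × M) := ((K ×ˢ K) ∩ (fun p : M × M => |L p.1 - L p.2|) ⁻¹' Ici δ)ᶜ with hW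
  have hWo : IsOpen W := by
    rw [hW, isOpen_compl_iff]
    refine ContinuousOn.preimage_isClosed_of_isClosed ?_ (hKc.prod hKc) isClosed_Ici
    have k1 : ContinuousOn (fun p : M × M => L p.1) (K ×ˢ K) :=
      hL.comp continuous_fst.continuousOn fun p hp => hp.1
    have k2 : ContinuousOn (fun p : M × M => L p.2) (K ×ˢ K) :=
      hL.comp continuous_snd.continuousOn fun p hp => hp.2
    exact (k1.sub k2).abs
  obtain ⟨m, x, hm, h0, hxm, h2, h3⟩ := hz W hWo fun x hx => by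
    have : δ ≤ |L x - L x| := hx.2
    rw [sub_self, abs_zero] at this
    linarith
  have hstep : ∀ i < m, |L (S (x i)) - L (x (i + 1))| < δ := by
    intro i hi
    by_contra hcon2
    rw [not_lt] at hcon2
    exact h3 i hi ⟨⟨hSK _ (h2 i hi.le), h2 (i + 1) hi⟩, hcon2⟩
  have hind : ∀ i, 1 ≤ i → i ≤ m → x i ∈ Kc := by
    intro i hi
    induction i, hi using Nat.le_induction with
    | base =>
      intro hi'
      have k1 := hstep 0 hi'
      rw [h0, zero_add] at k1
      have k2 := (abs_lt.1 k1).1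
      have k3 : δ ≤ c - L (S z) := min_le_right _ _
      refine ⟨h2 1 hi', ?_⟩
      show L (x 1) ≤ c
      linarith
    | succ i hi ih =>
      intro hi'
      have k0 := ih (by omega)
      have k1 := hstep i (by omega)
      have k2 := (abs_lt.1 k1).1
      have k3 : δ ≤ c - L (S y0) := min_le_left _ _
      have k4 : L (S (x i)) ≤ L (S y0) := hmax k0
      refine ⟨h2 (i + 1) hi', ?_⟩
      show L (x (i + 1)) ≤ c
      linarith
  have h4 : L (x m) ≤ c := (hind m hm le_rfl).2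
  rw [hxm] at h4
  linarith [hc1.2]

/-- finitely many periodic points -/
theorem goodOn_finite [T2Space M] {S : M → M} {K P0 : Set M} (hP0 : P0.Finite)
    (hPK : P0 ⊆ K) (hinv : ∀ y ∈ P0, S y ∈ P0) (hper : ∀ y ∈ P0, y ∈ Per S)
    (hrec : ∀ z, ChainRecOn S K z → z ∈ P0) : GoodOn S K := by
  classical
  have hit : ∀ y ∈ P0, orb S y ⊆ P0 := by
    rintro y hy _ ⟨k, rfl⟩
    show S^[k] y ∈ P0
    induction k with
    | zero => exact hy
    | succ k ih =>
      rw [Function.iterate_succ_apply']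
      exact hinv _ ih
  have hOf : ((fun y => orb S y) '' P0).Finite := hP0.image _
  set e := hOf.toFinset.equivFin with he
  have hmem : ∀ i, ∃ x ∈ P0, orb S x = (e.symm i : Set M) := fun i =>
    hOf.mem_toFinset.1 (e.symm i).2
  choose x hx1 hx2 using hmem
  refine ⟨_, fun i => (e.symm i : Set M), fun i => ?_, fun i => ?_, fun i => ?_, fun i j hij => ?_,
    fun i => ?_, fun z hz => ?_⟩
  · show IsClosed (e.symm i : Set M)
    rw [← hx2 i]
    exact (orb_finite (hper _ (hx1 i))).isClosed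
  · show (e.symm i : Set M) ⊆ K
    rw [← hx2 i]
    exact (hit _ (hx1 i)).trans hPK
  · show S '' (e.symm i : Set M) = (e.symm i : Set M)
    rw [← hx2 i]
    apply Subset.antisymm
    · rintro _ ⟨y, hy, rfl⟩
      exact orb_iter hy 1
    · rintro _ ⟨k, rfl⟩
      obtain ⟨m, hm1, hm⟩ := hper _ (hx1 i)
      refine ⟨S^[k + m * 1 - 1] (x i), ⟨_, rfl⟩, ?_⟩
      show S (S^[k + m * 1 - 1] (x i)) = S^[k] (x i)
      have k1 : S (S^[k + m * 1 - 1] (x i)) = S^[k + m * 1 - 1 + 1] (x i) :=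
        (Function.iterate_succ_apply' S _ _).symm
      rw [k1, Nat.sub_add_cancel (by omega), Function.iterate_add_apply, iter_mul_per hm]
  · show Disjoint (e.symm i : Set M) (e.symm j : Set M)
    have h1 : (e.symm i : Set M) ≠ (e.symm j : Set M) := fun h =>
      hij (e.symm.injective (Subtype.ext h))
    rw [← hx2 i, ← hx2 j] at h1 ⊢
    exact orb_disjoint (hper _ (hx1 i)) (hper _ (hx1 j)) h1
  · show ∃ y ∈ (e.symm i : Set M), (e.symm i : Set M) ⊆ closure (range fun k : ℕ => S^[k] y)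
    rw [← hx2 i]
    refine ⟨x i, mem_orb_self S _, ?_⟩
    refine Subset.trans ?_ subset_closure
    rintro _ ⟨k, rfl⟩
    exact ⟨k, rfl⟩
  · have hzP := hrec z hz
    have hO : orb S z ∈ hOf.toFinset := hOf.mem_toFinset.2 ⟨z, hzP, rfl⟩
    refine ⟨e ⟨orb S z, hO⟩, ?_⟩
    show z ∈ ((e.symm (e ⟨orb S z, hO⟩)) : Set M)
    rw [e.symm_apply_apply]
    exact mem_orb_self S z

/-- surjectivity of lifts -/
theorem lift_surj {F : ℝ → ℝ} (hF : Lift F) : Function.Surjective F := by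
  have hper : ∀ (k : ℤ) (x : ℝ), F (x + k) = F x + k := fun k x => by
    have := iter_add_int hF.per 1 x k
    simpa using this
  apply hF.continuous.surjective
  · rw [tendsto_atTop]
    intro b
    filter_upwards [eventually_ge_atTop ((⌈b - F 0⌉ : ℤ) : ℝ)] with x hx
    have h1 := hper ⌈b - F 0⌉ 0
    rw [zero_add] at h1
    have h2 : F ((⌈b - F 0⌉ : ℤ) : ℝ) ≤ F x := hF.strictMono.monotone hx
    have h3 := Int.le_ceil (b - F 0)
    linarith
  · rw [tendsto_atBot]
    intro b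
    filter_upwards [eventually_le_atBot ((⌊b - F 0⌋ : ℤ) : ℝ)] with x hx
    have h1 := hper ⌊b - F 0⌋ 0
    rw [zero_add] at h1
    have h2 : F x ≤ F ((⌊b - F 0⌋ : ℤ) : ℝ) := hF.strictMono.monotone hx
    have h3 := Int.floor_le (b - F 0)
    linarith

section circle

variable [T2Space M] {pr : ℝ → M}

theorem range_Icc (hpr : ∀ s t, pr s = pr t ↔ ∃ m : ℤ, s = t + m) :
    range pr = pr '' Icc (0 : ℝ) 1 := by
  apply Subset.antisymm
  · rintro _ ⟨t, rfl⟩
    refine ⟨Int.fract t, ⟨Int.fract_nonneg _, (Int.fract_lt_one _).le⟩, ?_⟩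
    rw [hpr]
    refine ⟨-⌊t⌋, ?_⟩
    have := Int.fract_add_floor t
    push_cast
    linarith
  · exact image_subset_range _ _

theorem iter_pr {S : M → M} {F : ℝ → ℝ} (hS : ∀ t, S (pr t) = pr (F t)) (k : ℕ) (t : ℝ) :
    S^[k] (pr t) = pr (F^[k] t) := by
  induction k with
  | zero => rfl
  | succ k ih => rw [Function.iterate_succ_apply', Function.iterate_succ_apply', ih, hS]

/-- **A circle fibre without degenerate periodic points is good.** -/
theorem good_circle (hprc : Continuous pr) (hpr : ∀ s t, pr s = pr t ↔ ∃ m : ℤ, s = t + m)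
    {S : M → M} (hSc : Continuous S) {F : ℝ → ℝ} (hF : Lift F) (hS : ∀ t, S (pr t) = pr (F t))
    (hnd : ∀ (q : ℕ) (p : ℤ), 1 ≤ q → ∀ x, F^[q] x = x + p → DF F q x ≠ 1) :
    GoodOn S (range pr) := by
  classical
  have hK : IsCompact (range pr) := by
    rw [range_Icc hpr]
    exact isCompact_Icc.image hprc
  have hSK : ∀ y ∈ range pr, S y ∈ range pr := by
    rintro _ ⟨t, rfl⟩
    exact ⟨F t, (hS t).symm⟩
  by_cases hex : ∃ (q : ℕ) (p : ℤ) (x : ℝ), 1 ≤ q ∧ F^[q] x = x + p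
  · obtain ⟨q, p, x0, hq, h0⟩ := hex
    obtain ⟨L, hLc, hLp, hL1, hL2⟩ := lyap hF h0 (hnd q p hq)
    have hfin := dsp_finite hF (hnd q p hq)
    set P0 : Set M := pr '' {x | x ∈ Icc (0 : ℝ) 1 ∧ F^[q] x = x + p} with hP0
    have hmem : ∀ x, F^[q] x = x + p → pr x ∈ P0 := by
      intro x hx
      have e1 : x = Int.fract x + ⌊x⌋ := (Int.fract_add_floor x).symm
      refine ⟨Int.fract x, ⟨⟨Int.fract_nonneg _, (Int.fract_lt_one _).le⟩, ?_⟩, ?_⟩
      · rw [e1, iter_add_int hF.per] at hx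
        linarith
      · rw [hpr]
        refine ⟨-⌊x⌋, ?_⟩
        push_cast
        linarith
    have hPp : ∀ y ∈ P0, ∃ x, F^[q] x = x + p ∧ pr x = y := by
      rintro _ ⟨x, hx, rfl⟩
      exact ⟨x, hx.2, rfl⟩
    -- the Lyapunov function
    set Lt : M → ℝ := fun y => if h : ∃ t, pr t = y then L h.choose else 0 with hLt
    have hLpr : ∀ t, Lt (pr t) = L t := by
      intro t
      have h1 : ∃ s, pr s = pr t := ⟨t, rfl⟩
      rw [hLt]
      simp only [h1, dite_true]
      obtain ⟨m, hm⟩ := (hpr _ _).1 h1.choose_spec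
      rw [hm, per_int hLp]
    have hLcont : ContinuousOn Lt (range pr) := by
      rw [continuousOn_iff_isClosed]
      intro C hC
      refine ⟨pr '' (Icc (0 : ℝ) 1 ∩ L ⁻¹' C), ?_, ?_⟩
      · exact ((isCompact_Icc.inter_right (hC.preimage hLc)).image hprc).isClosed
      · apply Subset.antisymm
        · rintro y ⟨hy, hyr⟩
          rw [range_Icc hpr] at hyr
          obtain ⟨t, ht, rfl⟩ := hyr
          refine ⟨⟨t, ⟨ht, ?_⟩, rfl⟩, ⟨t, rfl⟩⟩
          have h2 : Lt (pr t) ∈ C := hy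
          rw [hLpr] at h2
          exact h2
        · rintro y ⟨⟨t, ht, rfl⟩, -⟩
          refine ⟨?_, ⟨t, rfl⟩⟩
          show Lt (pr t) ∈ C
          rw [hLpr]
          exact ht.2
    refine goodOn_finite (hfin.image pr) ?_ ?_ ?_ fun z hz => ?_
    · rintro _ ⟨x, -, rfl⟩
      exact ⟨x, rfl⟩
    · intro y hy
      obtain ⟨x, hx, rfl⟩ := hPp y hy
      rw [hS]
      apply hmem
      rw [← Function.iterate_succ_apply, Function.iterate_succ_apply', hx]
      have := iter_add_int hF.per 1 x p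
      simpa using this
    · intro y hy
      obtain ⟨x, hx, rfl⟩ := hPp y hy
      refine ⟨q, hq, ?_⟩
      rw [iter_pr hS, hx, hpr]
      exact ⟨p, rfl⟩
    · refine chain_lyap (L := Lt) hSc hK hK.isClosed hSK (hfin.image pr) hLcont ?_ ?_ hz
      · rintro _ ⟨t, rfl⟩
        rw [hS, hLpr, hLpr]
        exact hL1 t
      · rintro _ ⟨t, rfl⟩ hnot
        rw [hS, hLpr, hLpr]
        refine hL2 t fun h => hnot (hmem t h)
  · push Not at hex
    refine ⟨1, fun _ => range pr, fun _ => hK.isClosed, fun _ => Subset.rfl, fun _ => ?_,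
      fun i j hij => absurd (Subsingleton.elim i j) hij, fun _ => ?_, fun z hz => ⟨0, ?_⟩⟩
    · apply Subset.antisymm
      · rintro _ ⟨y, hy, rfl⟩
        exact hSK y hy
      · rintro _ ⟨t, rfl⟩
        obtain ⟨s, rfl⟩ := lift_surj hF t
        exact ⟨pr s, ⟨s, rfl⟩, hS s⟩
    · refine ⟨pr 0, ⟨0, rfl⟩, ?_⟩
      rintro _ ⟨y, rfl⟩
      rw [mem_closure_iff_nhds]
      intro U hU
      have h1 : pr ⁻¹' U ∈ 𝓝 y := hprc.continuousAt hU
      obtain ⟨ε, hε, h2⟩ := Metric.mem_nhds_iff.1 h1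
      obtain ⟨a, k, h3⟩ := dense_of_noPer hF (fun q p x hq => hex q p x hq) 0 y hε
      refine ⟨pr (F^[a] 0), ?_, ⟨a, iter_pr hS a 0⟩⟩
      have h4 : pr (F^[a] 0 + k) ∈ U := h2 (by
        rw [Metric.mem_ball, Real.dist_eq]
        exact h3)
      have h5 : pr (F^[a] 0 + k) = pr (F^[a] 0) := (hpr _ _).2 ⟨k, rfl⟩
      rwa [h5] at h4
    · obtain ⟨m, x, hm, h0, h1, h2, h3⟩ := hz univ isOpen_univ fun _ => mem_univ _
      rw [← h0]
      exact h2 0 (Nat.zero_le _)

end circle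

end Pool.Agent.V8H2.PK
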