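import Pool.Agent.Helper320.CQSmall
import Pool.Agent.Helper320.CQTele
import Pool.Agent.Helper320.CQNum

set_option autoImplicit false

/-!
# Rotated circle diffeomorphisms
-/

open Set Filter Topology MeasureTheory

namespace Pool.Agent.V8H2.PK

open Pool.Agent.Helper320.CQ

/-- the rotated lift -/
def rot (f : ℝ → ℝ) (θ : ℝ) (t : ℝ) : ℝ := f t + θ

theorem rot_lift {f : ℝ → ℝ} (hf : Lift f) (θ : ℝ) : Lift (rot f θ) where
  c2 := hf.c2.add contDiff_const
  per := fun x => by
    unfold rot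
    rw [hf.per]
    ring
  pos := fun x => by
    have : deriv (rot f θ) x = deriv f x := deriv_add_const θ
    rw [this]
    exact hf.pos x

/-- forward orbits are dense if there are good pairs of return times -/
theorem dense_orbit {F : ℝ → ℝ} (hF : Lift F)
    (hGP : ∀ N : ℕ, ∃ (q q' : ℕ) (p p' : ℤ), N ≤ q ∧ GP F q q' p p') (x y : ℝ) {ε : ℝ}
    (hε : 0 < ε) : ∃ (a : ℕ) (k : ℤ), |F^[a] x + k - y| < ε := by
  obtain ⟨N, hN⟩ := small hF hε
  obtain ⟨q, q', p, p', h1, h2⟩ := hGP N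
  obtain ⟨a, -, k, h3, h4⟩ := cover hF.strictMono hF.per h2 x y
  refine ⟨a, k, ?_⟩
  have h5 := hN q q' p p' h1 h2 (F^[a] x)
  rw [← Function.iterate_add_apply, add_comm q a] at h5
  rw [abs_lt]
  constructor <;> linarith

/-- the lift as a degree one lift -/
def toDeg {f : ℝ → ℝ} (hf : Lift f) : CircleDeg1Lift where
  toFun := f
  monotone' := hf.strictMono.monotone
  map_add_one' := hf.per

/-- no periodic points: dense orbits -/
theorem dense_of_noPer {F : ℝ → ℝ} (hF : Lift F)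
    (hno : ∀ (q : ℕ) (p : ℤ) (x : ℝ), 1 ≤ q → F^[q] x ≠ x + p) (x y : ℝ) {ε : ℝ}
    (hε : 0 < ε) : ∃ (a : ℕ) (k : ℤ), |F^[a] x + k - y| < ε := by
  have hc : Continuous (toDeg hF) := hF.continuous
  have hirr : Irrational (CircleDeg1Lift.translationNumber (toDeg hF)) := by
    rintro ⟨r, hr⟩
    have h1 : CircleDeg1Lift.translationNumber ((toDeg hF) ^ r.den) = (r.num : ℝ) := by
      rw [CircleDeg1Lift.translationNumber_pow, ← hr]
      have h2 : (r.den : ℚ) * r = r.num := Rat.den_mul_eq_num r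
      exact_mod_cast h2
    have h3 : Continuous ((toDeg hF) ^ r.den) := by
      rw [CircleDeg1Lift.coe_pow]
      exact hc.iterate _
    obtain ⟨x, hx⟩ := (CircleDeg1Lift.translationNumber_eq_int_iff _ h3).1 h1
    rw [CircleDeg1Lift.coe_pow] at hx
    exact hno r.den r.num x r.pos hx
  exact dense_orbit hF (exists_GP (toDeg hF) hc hirr) x y hε

theorem rot_iter_ge {f : ℝ → ℝ} (hf : Monotone f) {a b : ℝ} (hab : a ≤ b) (q : ℕ) (hq : 1 ≤ q)
    (x : ℝ) : (rot f a)^[q] x + (b - a) ≤ (rot f b)^[q] x := by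
  have h0 : ∀ q : ℕ, (rot f a)^[q] x ≤ (rot f b)^[q] x := by
    intro q
    induction q with
    | zero => exact le_rfl
    | succ q ih =>
      rw [Function.iterate_succ_apply', Function.iterate_succ_apply']
      have := hf ih
      unfold rot at this ⊢
      linarith
  obtain ⟨q, rfl⟩ := Nat.exists_eq_add_of_le hq
  rw [add_comm 1 q, Function.iterate_succ_apply', Function.iterate_succ_apply']
  have := hf (h0 q)
  unfold rot at this ⊢
  linarith

theorem rot_iter_abs {f : ℝ → ℝ} (hf : Monotone f) (a b : ℝ) (q : ℕ) (hq : 1 ≤ q)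
    (x : ℝ) : |b - a| ≤ |(rot f b)^[q] x - (rot f a)^[q] x| := by
  rcases le_total a b with h | h
  · have := rot_iter_ge hf h q hq x
    rw [abs_of_nonneg (by linarith), abs_of_nonneg (by linarith)]
    linarith
  · have := rot_iter_ge hf h q hq x
    rw [abs_of_nonpos (by linarith), abs_of_nonpos (by linarith)]
    linarith

/-- the parameters with a degenerate periodic point -/
def DegP (f : ℝ → ℝ) (q : ℕ) (p : ℤ) : Set ℝ :=
  {θ | ∃ x, (rot f θ)^[q] x = x + p ∧ DF (rot f θ) q x = 1}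

/-- **One-dimensional Sard theorem for the rotated diffeomorphisms.** -/
theorem degP_null {f : ℝ → ℝ} (hf : Lift f) (q : ℕ) (hq : 1 ≤ q) (p : ℤ) :
    volume (DegP f q p) = 0 := by
  classical
  set s : Set ℝ := {x | ∃ θ, (rot f θ)^[q] x = x + p ∧ DF (rot f θ) q x = 1} with hs
  have hex : ∀ x : ℝ, ∃ θ : ℝ, x ∈ s → (rot f θ)^[q] x = x + p ∧ DF (rot f θ) q x = 1 := by
    intro x
    by_cases hx : x ∈ s
    · obtain ⟨θ, h⟩ := hx
      exact ⟨θ, fun _ => h⟩
    · exact ⟨0, fun h => absurd h hx⟩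
  choose Θ hΘ using hex
  have hm := hf.strictMono.monotone
  have hsub : DegP f q p ⊆ Θ '' s := by
    rintro θ ⟨x, h1, h2⟩
    have hx : x ∈ s := ⟨θ, h1, h2⟩
    refine ⟨x, hx, ?_⟩
    have h3 := rot_iter_abs hm θ (Θ x) q hq x
    rw [(hΘ x hx).1, h1, sub_self, abs_zero] at h3
    have h4 := abs_nonneg (Θ x - θ)
    have h5 : |Θ x - θ| = 0 := le_antisymm h3 h4
    rw [abs_eq_zero] at h5
    linarith
  have hder : ∀ x ∈ s, HasFDerivWithinAt Θ (0 : ℝ →L[ℝ] ℝ) s x := by
    intro x hx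
    have h1 := hΘ x hx
    have h2 : HasDerivAt (fun y => (rot f (Θ x))^[q] y - (y + p)) 0 x := by
      have h3 := (hasDerivAt_iter (rot_lift hf (Θ x)) q x).sub ((hasDerivAt_id x).add_const (p : ℝ))
      rw [h1.2, sub_self] at h3
      exact h3
    have h3 := hasDerivAt_iff_isLittleO.1 h2
    rw [hasFDerivWithinAt_iff_isLittleO]
    have h4 : (fun y => (rot f (Θ x))^[q] y - (y + p) - ((rot f (Θ x))^[q] x - (x + p)) -
        (y - x) • (0 : ℝ)) =o[𝓝[s] x] fun y => y - x := h3.mono nhdsWithin_le_nhds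
    refine (Asymptotics.IsBigO.trans_isLittleO ?_ h4)
    refine Asymptotics.IsBigO.of_bound 1 ?_
    filter_upwards [self_mem_nhdsWithin] with y hy
    have h5 := rot_iter_abs hm (Θ x) (Θ y) q hq y
    rw [(hΘ y hy).1] at h5
    rw [h1.1]
    simp only [zero_apply, sub_zero, smul_zero, sub_self, Real.norm_eq_abs,
      one_mul]
    rw [abs_sub_comm ((rot f (Θ x))^[q] y)]
    exact h5
  have h0 : volume (Θ '' s) = 0 := by
    refine addHaar_image_eq_zero_of_det_fderivWithin_eq_zero volume hder fun x _ => ?_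
    simp
  exact measure_mono_null hsub h0

end Pool.Agent.V8H2.PK
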