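import Pool.Agent.V8H2.PK.Lift

set_option autoImplicit false

/-!
# A Lyapunov function for a circle diffeomorphism with nondegenerate periodic points
-/

open Set Filter Topology MeasureTheory

namespace Pool.Agent.V8H2.PK

open Pool.Agent.Helper320.CQ

theorem per_int {f : ℝ → ℝ} (h : ∀ x, f (x + 1) = f x) (k : ℤ) (x : ℝ) : f (x + k) = f x := by
  have h1 : Function.Periodic f 1 := h
  have h2 := h1.int_mul k x
  rw [mul_one] at h2
  exact h2

section

variable {F : ℝ → ℝ} {q : ℕ} {p : ℤ}

/-- displacement of the return map -/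
def dsp (F : ℝ → ℝ) (q : ℕ) (p : ℤ) (x : ℝ) : ℝ := F^[q] x - (x + p)

theorem dsp_cont (hF : Lift F) : Continuous (dsp F q p) :=
  (iter_cont hF q).sub (continuous_id.add continuous_const)

theorem dsp_per (hF : Lift F) (x : ℝ) : dsp F q p (x + 1) = dsp F q p x := by
  unfold dsp
  rw [iter_per hF.per]
  ring

theorem dsp_deriv (hF : Lift F) (x : ℝ) : HasDerivAt (dsp F q p) (DF F q x - 1) x :=
  (hasDerivAt_iter hF q x).sub ((hasDerivAt_id x).add_const (p : ℝ))

theorem dsp_finite (hF : Lift F) (hnd : ∀ x, F^[q] x = x + p → DF F q x ≠ 1) :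
    {x | x ∈ Icc (0 : ℝ) 1 ∧ F^[q] x = x + p}.Finite := by
  by_contra hcon
  obtain ⟨z, hz, hacc⟩ := Set.Infinite.exists_accPt_of_subset_isCompact hcon
    (isCompact_Icc (a := (0 : ℝ)) (b := 1)) (fun x hx => hx.1)
  have hne : ∀ᶠ y in 𝓝[≠] z, dsp F q p y ≠ 0 := by
    by_cases h0 : dsp F q p z = 0
    · have h1 : DF F q z - 1 ≠ 0 := by
        intro h
        exact hnd z (by unfold dsp at h0; linarith) (by linarith)
      exact (dsp_deriv hF z).eventually_ne h1
    · exact ((dsp_cont hF).continuousAt.eventually_ne h0).filter_mono nhdsWithin_le_nhds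
  have h3 := accPt_iff_frequently_nhdsNE.1 hacc
  obtain ⟨y, hy1, hy2⟩ := (h3.and_eventually hne).exists
  apply hy2
  unfold dsp
  rw [hy1.2, sub_self]

theorem dsp_signs (hF : Lift F) {x0 : ℝ} (h0 : F^[q] x0 = x0 + p)
    (hnd : ∀ x, F^[q] x = x + p → DF F q x ≠ 1) :
    (∃ x, 0 < dsp F q p x) ∧ ∃ x, dsp F q p x < 0 := by
  have h1 : dsp F q p x0 = 0 := by
    unfold dsp
    rw [h0, sub_self]
  have hd : DF F q x0 - 1 ≠ 0 := fun h => hnd x0 h0 (by linarith)
  constructor
  · by_contra hcon
    push Not at hcon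
    have h2 : IsLocalMax (dsp F q p) x0 := Filter.Eventually.of_forall fun y => by
      show dsp F q p y ≤ dsp F q p x0
      rw [h1]
      exact hcon y
    exact hd (h2.hasDerivAt_eq_zero (dsp_deriv hF x0))
  · by_contra hcon
    push Not at hcon
    have h2 : IsLocalMin (dsp F q p) x0 := Filter.Eventually.of_forall fun y => by
      show dsp F q p x0 ≤ dsp F q p y
      rw [h1]
      exact hcon y
    exact hd (h2.hasDerivAt_eq_zero (dsp_deriv hF x0))

theorem dsp_pos_interval (hF : Lift F) {x : ℝ} (hx : 0 < dsp F q p x) {t : ℝ}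
    (ht : t ∈ Icc x (x + dsp F q p x)) : 0 < dsp F q p t := by
  by_contra hcon
  rw [not_lt] at hcon
  obtain ⟨z, hz, hz0⟩ := intermediate_value_Icc' ht.1 ((dsp_cont (q := q) (p := p) hF).continuousOn)
    ⟨hcon, hx.le⟩
  have hzx : x < z := by
    rcases hz.1.lt_or_eq with h | h
    · exact h
    · rw [← h] at hz0
      linarith
  have h2 := iter_mono hF.strictMono q hzx
  have h3 : F^[q] z = z + p := by
    unfold dsp at hz0
    linarith
  have h4 : F^[q] x = x + dsp F q p x + p := by
    unfold dsp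
    ring
  rw [h3, h4] at h2
  linarith [hz.2, ht.2]

theorem dsp_neg_interval (hF : Lift F) {x : ℝ} (hx : dsp F q p x < 0) {t : ℝ}
    (ht : t ∈ Icc (x + dsp F q p x) x) : dsp F q p t < 0 := by
  by_contra hcon
  rw [not_lt] at hcon
  obtain ⟨z, hz, hz0⟩ := intermediate_value_Icc' ht.2 ((dsp_cont (q := q) (p := p) hF).continuousOn)
    ⟨hx.le, hcon⟩
  have hzx : z < x := by
    rcases hz.2.lt_or_eq with h | h
    · exact h
    · rw [h] at hz0
      linarith
  have h2 := iter_mono hF.strictMono q hzx
  have h3 : F^[q] z = z + p := by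
    unfold dsp at hz0
    linarith
  have h4 : F^[q] x = x + dsp F q p x + p := by
    unfold dsp
    ring
  rw [h3, h4] at h2
  linarith [hz.1, ht.1]

/-- **A Lyapunov function.** -/
theorem lyap (hF : Lift F) {x0 : ℝ} (h0 : F^[q] x0 = x0 + p)
    (hnd : ∀ x, F^[q] x = x + p → DF F q x ≠ 1) :
    ∃ L : ℝ → ℝ, Continuous L ∧ (∀ x, L (x + 1) = L x) ∧ (∀ x, L (F x) ≤ L x) ∧
      ∀ x, F^[q] x ≠ x + p → L (F x) < L x := by
  set P := dsp F q p with hP
  have hPc : Continuous P := dsp_cont hF
  have hPp : ∀ x, P (x + 1) = P x := dsp_per hF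
  obtain ⟨⟨a, ha⟩, ⟨b, hb⟩⟩ := dsp_signs hF h0 hnd
  set α : ℝ := ∫ x in (0 : ℝ)..1, max (-P x) 0 with hα
  set β : ℝ := ∫ x in (0 : ℝ)..1, max (P x) 0 with hβ
  have hm1 : Continuous fun x => max (-P x) 0 := hPc.neg.max continuous_const
  have hm2 : Continuous fun x => max (P x) 0 := hPc.max continuous_const
  have hfr : ∀ x : ℝ, P (Int.fract x) = P x := by
    intro x
    have := per_int hPp ⌊x⌋ (Int.fract x)
    rw [Int.fract_add_floor] at this
    exact this.symm
  have hα0 : 0 < α := by
    refine intervalIntegral.integral_pos one_pos hm1.continuousOn (fun x _ => le_max_right _ _) ?_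
    refine ⟨Int.fract b, ⟨Int.fract_nonneg _, (Int.fract_lt_one _).le⟩, lt_max_of_lt_left ?_⟩
    rw [hfr]
    linarith
  have hβ0 : 0 < β := by
    refine intervalIntegral.integral_pos one_pos hm2.continuousOn (fun x _ => le_max_right _ _) ?_
    refine ⟨Int.fract a, ⟨Int.fract_nonneg _, (Int.fract_lt_one _).le⟩, lt_max_of_lt_left ?_⟩
    rw [hfr]
    exact ha
  set φ : ℝ → ℝ := fun x => α * max (P x) 0 - β * max (-P x) 0 with hφ
  have hφc : Continuous φ := (hm2.const_mul α).sub (hm1.const_mul β)
  have hφp : Function.Periodic φ 1 := fun x => by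
    show α * max (P (x + 1)) 0 - β * max (-P (x + 1)) 0 = _
    rw [hPp]
  have hφint : ∀ u v, IntervalIntegrable φ volume u v := fun u v => hφc.intervalIntegrable u v
  set l : ℝ → ℝ := fun x => -∫ t in (0 : ℝ)..x, φ t with hl
  have hlc : Continuous l := (intervalIntegral.continuous_primitive hφint 0).neg
  have hl01 : ∫ t in (0 : ℝ)..1, φ t = 0 := by
    rw [hφ, intervalIntegral.integral_sub ((hm2.const_mul α).intervalIntegrable _ _)
      ((hm1.const_mul β).intervalIntegrable _ _), intervalIntegral.integral_const_mul,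
      intervalIntegral.integral_const_mul, ← hα, ← hβ]
    ring
  have hdiff : ∀ u v, l v - l u = -∫ t in u..v, φ t := by
    intro u v
    have := intervalIntegral.integral_interval_sub_left (hφint 0 v) (hφint 0 u)
    show -(∫ t in (0 : ℝ)..v, φ t) - -(∫ t in (0 : ℝ)..u, φ t) = _
    rw [← this]
    ring
  have hlp : ∀ x, l (x + 1) = l x := by
    intro x
    have h1 := hdiff x (x + 1)
    have h2 := hφp.intervalIntegral_add_eq x 0
    rw [zero_add, hl01] at h2
    rw [h2] at h1
    linarith
  have hkey : ∀ x, l (F^[q] x) ≤ l x ∧ (F^[q] x ≠ x + p → l (F^[q] x) < l x) := by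
    intro x
    have e1 : F^[q] x = (x + P x) + p := by
      rw [hP]
      unfold dsp
      ring
    rw [e1, per_int hlp]
    rcases lt_trichotomy (P x) 0 with h | h | h
    · have h1 : l (x + P x) < l x := by
        have h2 := hdiff x (x + P x)
        rw [intervalIntegral.integral_symm, neg_neg] at h2
        have h3 : 0 < ∫ t in (x + P x)..x, (-φ t) := by
          refine intervalIntegral.intervalIntegral_pos_of_pos_on (hφint _ _).neg (fun t ht => ?_)
            (by linarith)
          have h4 : P t < 0 := dsp_neg_interval hF h ⟨ht.1.le, ht.2.le⟩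
          show 0 < -(α * max (P t) 0 - β * max (-P t) 0)
          rw [max_eq_right h4.le, max_eq_left (by linarith : (0 : ℝ) ≤ -P t)]
          nlinarith
        rw [intervalIntegral.integral_neg] at h3
        linarith
      exact ⟨h1.le, fun _ => h1⟩
    · rw [h, add_zero]
      exact ⟨le_rfl, fun h' => absurd rfl h'⟩
    · have h1 : l (x + P x) < l x := by
        have h2 := hdiff x (x + P x)
        have h3 : 0 < ∫ t in x..(x + P x), φ t := by
          refine intervalIntegral.intervalIntegral_pos_of_pos_on (hφint _ _) (fun t ht => ?_)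
            (by linarith)
          have h4 : 0 < P t := dsp_pos_interval hF h ⟨ht.1.le, ht.2.le⟩
          show 0 < α * max (P t) 0 - β * max (-P t) 0
          rw [max_eq_left h4.le, max_eq_right (by linarith : -P t ≤ (0 : ℝ))]
          nlinarith
        linarith
      exact ⟨h1.le, fun _ => h1⟩
  have htel : ∀ x, (∑ j ∈ Finset.range q, l (F^[j] (F x))) - ∑ j ∈ Finset.range q, l (F^[j] x) =
      l (F^[q] x) - l x := by
    intro x
    rw [← Finset.sum_sub_distrib]
    have h1 := Finset.sum_range_sub (fun j => l (F^[j] x)) q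
    simp only [Function.iterate_zero, id_eq] at h1
    rw [← h1]
    refine Finset.sum_congr rfl fun j _ => ?_
    rw [← Function.iterate_succ_apply]
  refine ⟨fun x => ∑ j ∈ Finset.range q, l (F^[j] x),
    continuous_finsetSum _ fun j _ => hlc.comp (iter_cont hF j), fun x => ?_, fun x => ?_,
    fun x hx => ?_⟩
  · refine Finset.sum_congr rfl fun j _ => ?_
    rw [iter_per hF.per, hlp]
  · have h1 := htel x
    have h2 := (hkey x).1
    show (∑ j ∈ Finset.range q, l (F^[j] (F x))) ≤ ∑ j ∈ Finset.range q, l (F^[j] x)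
    linarith
  · have h1 := htel x
    have h2 := (hkey x).2 hx
    show (∑ j ∈ Finset.range q, l (F^[j] (F x))) < ∑ j ∈ Finset.range q, l (F^[j] x)
    linarith

end

end Pool.Agent.V8H2.PK
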